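import Pool.Agent.HAR.Stmts

/-! HAR, NU2: bounds for the parameters. -/

namespace Pool.Agent.HAR.H41

open Finset Filter Topology

theorem ev_log : ∀ᶠ n : ℕ in atTop, Real.log n ≤ Real.sqrt n / 1000 := by
  have h := (isLittleO_log_rpow_atTop (r := 1 / 2) (by norm_num)).bound
    (show (0 : ℝ) < 1 / 1000 by norm_num)
  have h2 := tendsto_natCast_atTop_atTop (R := ℝ).eventually h
  filter_upwards [h2] with n hn
  rw [← Real.sqrt_eq_rpow] at hn
  have h3 := le_trans (le_abs_self _) hn
  rw [Real.norm_of_nonneg (Real.sqrt_nonneg _)] at h3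
  linarith

theorem le_choose_mid : ∀ u t : ℕ, 0 < t → t < u → u ≤ u.choose t := by
  intro u
  induction u with
  | zero => intro t _ h; omega
  | succ u ih =>
    intro t h0 h1
    obtain ⟨t, rfl⟩ : ∃ k, t = k + 1 := ⟨t - 1, by omega⟩
    rw [Nat.choose_succ_succ']
    by_cases h : t + 1 = u
    · subst h
      simp [Nat.choose_succ_self_right]
    · have h2 := ih (t + 1) (by omega) (by omega)
      have h3 : 0 < u.choose t := Nat.choose_pos (by omega)
      omega

theorem nu2 (nu1 : Nu1Stmt) : Nu2Stmt := by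
  filter_upwards [nu1, ev_log, eventually_ge_atTop 100000000] with n hC hlog hn
  have hnR : (100000000 : ℝ) ≤ n := by exact_mod_cast hn
  have hn0 : (0 : ℝ) < n := by linarith
  set s : ℝ := Real.sqrt n with hs
  have hss : s * s = n := Real.mul_self_sqrt hn0.le
  have hs0 : 0 ≤ s := Real.sqrt_nonneg _
  have hs4 : (10000 : ℝ) ≤ s := by
    by_contra hc
    push Not at hc
    nlinarith
  have hsn : s * 10000 ≤ n := by nlinarith
  have hkk : 2 * kk n ≤ n := by unfold kk; omega
  set C : ℝ := (n.choose (2 * kk n) : ℝ) with hCdef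
  have hCpos : 0 < C := by
    rw [hCdef]; exact_mod_cast Nat.choose_pos hkk
  have hlog2 : 0.6931471803 < Real.log 2 := Real.log_two_gt_d9
  have hCge : Real.exp (0.448 * n) ≤ C := by
    rw [← Real.exp_log hCpos]
    refine Real.exp_le_exp.mpr (le_trans ?_ hC)
    nlinarith
  have hpow : ∀ m : ℕ, (n : ℝ) ^ m = Real.exp (m * Real.log n) := by
    intro m
    rw [mul_comm, Real.exp_mul, Real.exp_log hn0]
    norm_cast
  have hn5 : (n : ℝ) ^ 5 ≤ Real.exp (0.001 * n) := by
    rw [hpow]
    refine Real.exp_le_exp.mpr ?_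
    push_cast
    nlinarith
  have hn5pos : (0 : ℝ) < (n : ℝ) ^ 5 := by positivity
  have hone : ∀ a : ℝ, 0 ≤ a → 1 ≤ Real.exp a := fun a ha => Real.one_le_exp ha
  have hadd : ∀ a : ℝ, a + 1 ≤ Real.exp a := Real.add_one_le_exp
  have hLlo : Real.exp (0.4 * n) ≤ (LL n : ℝ) := by
    have h1 : (n.choose (2 * kk n)) < (LL n + 1) * n ^ 5 := by
      unfold LL
      have h5 : 0 < n ^ 5 := by positivity
      have := Nat.lt_div_mul_add (a := n.choose (2 * kk n)) h5
      linarith
    have h2 : C < ((LL n : ℝ) + 1) * (n : ℝ) ^ 5 := by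
      rw [hCdef]
      exact_mod_cast h1
    have h3 : Real.exp (0.448 * n) < ((LL n : ℝ) + 1) * Real.exp (0.001 * n) := by
      refine lt_of_le_of_lt hCge (lt_of_lt_of_le h2 ?_)
      exact mul_le_mul_of_nonneg_left hn5 (by positivity)
    have h4 : Real.exp (0.448 * n) = Real.exp (0.447 * n) * Real.exp (0.001 * n) := by
      rw [← Real.exp_add]
      ring_nf
    rw [h4] at h3
    have h5 : Real.exp (0.447 * n) < (LL n : ℝ) + 1 :=
      lt_of_mul_lt_mul_right h3 (Real.exp_pos _).le
    have h6 : Real.exp (0.447 * n) = Real.exp (0.4 * n) * Real.exp (0.047 * n) := by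
      rw [← Real.exp_add]
      ring_nf
    have h7 : (2 : ℝ) ≤ Real.exp (0.047 * n) := by
      have := hadd (0.047 * n)
      linarith
    have h8 := hone (0.4 * n) (by positivity)
    rw [h6] at h5
    nlinarith [Real.exp_pos (0.4 * (n : ℝ))]
  have h64 : 64 * (n : ℝ) ^ 2 ≤ Real.exp (0.4 * n) := by
    rw [hpow]
    have h1 : (64 : ℝ) ≤ Real.exp (0.1 * n) := by
      have := hadd (0.1 * n)
      linarith
    have h2 : Real.exp (((2 : ℕ) : ℝ) * Real.log n) ≤ Real.exp (0.3 * n) := by
      refine Real.exp_le_exp.mpr ?_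
      push_cast
      nlinarith
    calc 64 * Real.exp (((2 : ℕ) : ℝ) * Real.log n) ≤ Real.exp (0.1 * n) * Real.exp (0.3 * n) :=
          mul_le_mul h1 h2 (Real.exp_pos _).le (Real.exp_pos _).le
      _ = Real.exp (0.4 * n) := by
          rw [← Real.exp_add]
          ring_nf
  have hL64 : 64 * (n : ℝ) ^ 2 ≤ (LL n : ℝ) := h64.trans hLlo
  have hLpos : (0 : ℝ) < (LL n : ℝ) := lt_of_lt_of_le (by positivity) hL64
  have hLposN : 0 < LL n := by exact_mod_cast hLpos
  set r : ℝ := Real.sqrt (LL n) with hr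
  have hrr : r * r = LL n := Real.mul_self_sqrt hLpos.le
  have hr8 : 8 * (n : ℝ) ≤ r := by
    rw [hr]
    refine Real.le_sqrt_of_sq_le ?_
    nlinarith
  have hrpos : 0 < r := by linarith
  have het : et n = n / r := rfl
  have hetpos : 0 < et n := by rw [het]; positivity
  have het8 : et n ≤ 1 / 8 := by
    rw [het, div_le_div_iff₀ hrpos (by norm_num)]
    linarith
  have hL2 : (LL n : ℝ) ≤ 2 ^ n := by
    have : LL n ≤ 2 ^ n := by
      unfold LL
      exact (Nat.div_le_self _ _).trans (Nat.choose_le_two_pow _ _)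
    exact_mod_cast this
  have huu : uu n + 2 ≤ n := by
    unfold uu kk
    omega
  have huupos : 0 < uu n := by unfold uu kk; omega
  have huu32 : 32 ≤ uu n := by unfold uu kk; omega
  have hsq : Nat.sqrt n ≤ uu n := by
    have h1 : Nat.sqrt n * Nat.sqrt n ≤ n := Nat.sqrt_le n
    have h2 : n ≤ 2 * uu n := by unfold uu kk; omega
    by_contra hc
    push Not at hc
    nlinarith
  have hLup : (LL n : ℝ) ≤ C / (n : ℝ) ^ 5 := by
    have := Nat.cast_div_le (α := ℝ) (m := n.choose (2 * kk n)) (n := n ^ 5)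
    push_cast at this
    exact this
  have hsqs : (Nat.sqrt n : ℝ) ≤ s := Real.nat_sqrt_le_real_sqrt
  have hsqs2 : s < (Nat.sqrt n : ℝ) + 1 := by
    have := Real.real_sqrt_lt_nat_sqrt_succ (a := n)
    exact_mod_cast this
  refine ⟨hLposN, hL2, hetpos, het8, ?_, huu, by unfold tt; omega, hsq, ?_, ?_⟩
  · rw [het, ← hrr]
    field_simp
  · have h1 : (LL n : ℝ) * (5 * n ^ 2) ≤ C / 4800 := by
      have h2 : (LL n : ℝ) * (5 * n ^ 2) ≤ C / (n : ℝ) ^ 5 * (5 * n ^ 2) :=
        mul_le_mul_of_nonneg_right hLup (by positivity)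
      refine h2.trans ?_
      have h3 : C / (n : ℝ) ^ 5 * (5 * n ^ 2) = C * (5 / (n : ℝ) ^ 3) := by
        field_simp
      have h4 : 5 / (n : ℝ) ^ 3 ≤ 1 / 4800 := by
        rw [div_le_div_iff₀ (by positivity) (by norm_num)]
        have : (100000000 : ℝ) ≤ (n : ℝ) ^ 3 := by
          calc (100000000 : ℝ) ≤ n := hnR
            _ ≤ (n : ℝ) ^ 3 := le_self_pow₀ (by linarith) (by norm_num)
        linarith
      rw [h3]
      calc C * (5 / (n : ℝ) ^ 3) ≤ C * (1 / 4800) := mul_le_mul_of_nonneg_left h4 hCpos.le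
        _ = C / 4800 := by ring
    have h5 : 5 * (n : ℝ) ^ 2 * (n : ℝ) ^ (2 * Nat.sqrt n) ≤ C / 4800 := by
      have h6 : (n : ℝ) ^ 2 * (n : ℝ) ^ (2 * Nat.sqrt n) = (n : ℝ) ^ (2 + 2 * Nat.sqrt n) := by
        rw [pow_add]
      have h7 : (n : ℝ) ^ (2 + 2 * Nat.sqrt n) ≤ Real.exp (0.1 * n) := by
        rw [hpow]
        refine Real.exp_le_exp.mpr ?_
        push_cast
        have h8 : 2 + 2 * (Nat.sqrt n : ℝ) ≤ 3 * s := by linarith
        have h9 : 0 ≤ Real.log n := Real.log_nonneg (by linarith)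
        calc (2 + 2 * (Nat.sqrt n : ℝ)) * Real.log n ≤ 3 * s * (s / 1000) :=
              mul_le_mul h8 hlog h9 (by positivity)
          _ ≤ 0.1 * n := by nlinarith
      have h10 : (24000 : ℝ) ≤ Real.exp (0.1 * n) := by
        have := hadd (0.1 * n)
        linarith
      have h11 : 24000 * (n : ℝ) ^ (2 + 2 * Nat.sqrt n) ≤ C := by
        calc 24000 * (n : ℝ) ^ (2 + 2 * Nat.sqrt n) ≤ Real.exp (0.1 * n) * Real.exp (0.1 * n) :=
              mul_le_mul h10 h7 (by positivity) (Real.exp_pos _).le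
          _ = Real.exp (0.2 * n) := by
              rw [← Real.exp_add]
              ring_nf
          _ ≤ Real.exp (0.448 * n) := Real.exp_le_exp.mpr (by nlinarith)
          _ ≤ C := hCge
      rw [mul_assoc, h6]
      linarith
    linarith
  · intro t ht1 ht2
    have htpos : 0 < t := by unfold tt at ht1; omega
    have hMM : 16 ≤ MM n t := by
      have h1 := le_choose_mid (uu n) t htpos ht2
      have h2 : (32 : ℝ) ≤ ((uu n).choose t : ℝ) := by exact_mod_cast huu32.trans h1
      unfold MM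
      linarith
    have hMM0 : 0 ≤ MM n t := by linarith
    have hsM4 : 4 ≤ Real.sqrt (MM n t) := by
      refine Real.le_sqrt_of_sq_le ?_
      linarith
    have hMM2 : MM n t ≤ 2 ^ n := by
      unfold MM
      have h1 : ((uu n).choose t : ℝ) ≤ 2 ^ (uu n) := by
        exact_mod_cast Nat.choose_le_two_pow (uu n) t
      have h2 : (2 : ℝ) ^ (uu n) ≤ 2 ^ n := pow_le_pow_right₀ (by norm_num) (by omega)
      have h3 : (0 : ℝ) ≤ ((uu n).choose t : ℝ) := by positivity
      linarith
    have hval0 : 0 ≤ Real.sqrt (MM n t) / (16 * et n) := by positivity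
    have hfl : ((QQ n t : ℕ) : ℝ) ≤ Real.sqrt (MM n t) / (16 * et n) := Nat.floor_le hval0
    refine ⟨hMM, ?_, ?_, ?_, ?_⟩
    · unfold QQ
      rw [Nat.one_le_floor_iff, le_div_iff₀ (by positivity)]
      linarith
    · refine hfl.trans ?_
      rw [het]
      have e1 : Real.sqrt (MM n t) / (16 * (n / r)) = Real.sqrt (MM n t) * r / (16 * n) := by
        field_simp
      rw [e1, div_le_iff₀ (by positivity)]
      have h1 : Real.sqrt (MM n t) ≤ Real.sqrt (2 ^ n) := Real.sqrt_le_sqrt hMM2
      have h2 : r ≤ Real.sqrt (2 ^ n) := Real.sqrt_le_sqrt hL2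
      have h3 : Real.sqrt ((2 : ℝ) ^ n) * Real.sqrt (2 ^ n) = 2 ^ n :=
        Real.mul_self_sqrt (by positivity)
      calc Real.sqrt (MM n t) * r ≤ Real.sqrt (2 ^ n) * Real.sqrt (2 ^ n) :=
            mul_le_mul h1 h2 hrpos.le (Real.sqrt_nonneg _)
        _ = 2 ^ n := h3
        _ ≤ 2 ^ n * (16 * (n : ℝ)) := le_mul_of_one_le_right (by positivity) (by linarith)
    · calc 16 * et n * (QQ n t : ℝ) ≤ 16 * et n * (Real.sqrt (MM n t) / (16 * et n)) :=
            mul_le_mul_of_nonneg_left hfl (by positivity)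
        _ = Real.sqrt (MM n t) := by field_simp
    · have h1 : (s - 1) / 100 ≤ (Nat.sqrt n : ℝ) * t / uu n := by
        have huR : (0 : ℝ) < uu n := by exact_mod_cast huupos
        have huR2 : (uu n : ℝ) ≤ n := by
          have : uu n ≤ n := by omega
          exact_mod_cast this
        have htR : (n : ℝ) ≤ 100 * t := by
          have : n ≤ 100 * t := by unfold tt at ht1; omega
          exact_mod_cast this
        rw [div_le_div_iff₀ (by norm_num) huR]
        have h2 : (s - 1) * (uu n : ℝ) ≤ (s - 1) * n :=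
          mul_le_mul_of_nonneg_left huR2 (by linarith)
        have h3 : (s - 1) * (n : ℝ) ≤ (Nat.sqrt n : ℝ) * (100 * t) :=
          mul_le_mul (by linarith) htR hn0.le (by positivity)
        linarith
      have h20 : 4 * (5 * (n : ℝ) ^ 2) ≤ Real.exp ((s - 1) / 100) := by
        rw [hpow]
        have h2 : (20 : ℝ) ≤ Real.exp (20 : ℝ) := by
          have := hadd (20 : ℝ)
          linarith
        calc 4 * (5 * Real.exp (((2 : ℕ) : ℝ) * Real.log n)) =
              20 * Real.exp (((2 : ℕ) : ℝ) * Real.log n) := by ring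
          _ ≤ Real.exp 20 * Real.exp (((2 : ℕ) : ℝ) * Real.log n) :=
              mul_le_mul_of_nonneg_right h2 (Real.exp_pos _).le
          _ = Real.exp (20 + ((2 : ℕ) : ℝ) * Real.log n) := by rw [← Real.exp_add]
          _ ≤ Real.exp ((s - 1) / 100) := by
              refine Real.exp_le_exp.mpr ?_
              push_cast
              linarith
      have h3 : Real.exp (-((Nat.sqrt n : ℝ) * t / uu n)) ≤ Real.exp (-((s - 1) / 100)) :=
        Real.exp_le_exp.mpr (by linarith)
      calc 4 * (5 * (n : ℝ) ^ 2) * Real.exp (-((Nat.sqrt n : ℝ) * t / uu n)) ≤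
            Real.exp ((s - 1) / 100) * Real.exp (-((s - 1) / 100)) :=
            mul_le_mul h20 h3 (Real.exp_pos _).le (Real.exp_pos _).le
        _ = 1 := by rw [← Real.exp_add]; simp

end Pool.Agent.HAR.H41
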