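import Pool.Agent.HAR.Stmts

/-! HAR, SEL: the data for a typical graph and any other graph. -/

namespace Pool.Agent.HAR.H41

open Finset Filter Topology

open Classical in
theorem sel (fam : FamStmt) (grd : GrdStmt) (nea : NeaStmt) (pri : PriStmt) (nu2 : Nu2Stmt)
    (cls : ClsStmt) : SelStmt := by
  intro c hc
  filter_upwards [fam c hc, nu2, eventually_ge_atTop 2] with n hfam hnu hn2 G H hTy hGH
  obtain ⟨v0, F, hFcard, hF⟩ := hfam G H hTy hGH
  obtain ⟨hLpos, hL2, hetpos, het8, hetL, huu, htt, hsq, hLK, ht⟩ := hnu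
  obtain ⟨-, hcls1, hcls2⟩ := cls
  set g : ℕ := Nat.sqrt n with hg
  set K : ℕ := 5 * n ^ 2 with hK
  have huupos : 0 < uu n := by
    by_contra h
    have h0 : uu n = 0 := by omega
    unfold uu kk at h0
    have hsq2 : Nat.sqrt n ≤ 0 := by
      have := hsq
      rw [show uu n = 0 by omega] at this
      exact this
    have : 0 < Nat.sqrt n := Nat.sqrt_pos.mpr (by omega)
    omega
  -- tuples
  have hcount : LL n * K + K * n ^ (2 * g) ≤ F.card := by
    have h1 : ((LL n : ℝ) * (5 * n ^ 2) + 5 * n ^ 2 * n ^ (2 * Nat.sqrt n)) ≤ (F.card : ℝ) :=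
      hLK.trans hFcard
    rw [hK, hg]
    exact_mod_cast h1
  obtain ⟨τ, hτ1, hτ2, hτ3⟩ := grd (Finset (Fin n)) F
    (fun a b => a.card = uu n ∧ b.card = uu n ∧ uu n < (a ∩ b).card + g) (n ^ (2 * g)) K (LL n)
    (by
      rintro a b ⟨h1, h2, h3⟩
      refine ⟨h2, h1, ?_⟩
      rw [inter_comm]
      exact h3)
    (by
      intro a
      by_cases ha : a.card = uu n
      · refine le_trans ?_ (nea n g (uu n) a hn2 ha)
        refine Nat.card_le_card_of_injective
          (fun b : {b // b ∈ F ∧ a.card = uu n ∧ b.card = uu n ∧ uu n < (a ∩ b).card + g} =>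
            (⟨b.1, b.2.2.2⟩ : {U' : Finset (Fin n) // U'.card = uu n ∧ uu n < (a ∩ U').card + g})) ?_
        intro b b' h
        have h2 := congrArg Subtype.val h
        exact Subtype.ext h2
      · have : IsEmpty {b // b ∈ F ∧ a.card = uu n ∧ b.card = uu n ∧ uu n < (a ∩ b).card + g} :=
          ⟨fun b => ha b.2.2.1⟩
        rw [Nat.card_of_isEmpty]
        exact Nat.zero_le _)
    hcount
  refine ⟨v0, τ, fun l i t => (powersetCard t (τ l i)).filter fun S =>
    Uq G S ∧ ∀ i', S ⊆ τ l i' → i' = i, ?_⟩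
  have hinter : ∀ l i i', i ≠ i' → (τ l i ∩ τ l i').card + g ≤ uu n := by
    intro l i i' hi
    have h1 := hτ3 l i i' hi
    by_contra h2
    push Not at h2
    exact h1 ⟨(hF _ (hτ1 l i)).1, (hF _ (hτ1 l i')).1, h2⟩
  refine
    { t0_ge := htt
      u_le := by rw [Fintype.card_fin]; exact huu
      card := fun l i => (hF _ (hτ1 l i)).1
      nmem := fun l i => (hF _ (hτ1 l i)).2.1
      inj := hτ2
      uq := fun l i B hB => hcls1 n G _ (hF _ (hτ1 l i)).2.2.1 B hB
      fr := fun l i B => hcls2 n G H _ (hF _ (hτ1 l i)).2.2.2.1 B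
      sub := ?_
      big := ?_
      M16 := fun t h1 h2 => (ht t h1 h2).1
      Q1 := fun t h1 h2 => ⟨(ht t h1 h2).2.1, (ht t h1 h2).2.2.2.1⟩
      eta := ⟨hetpos, het8⟩ }
  · intro l i t h1 h2 S hS
    simp only [mem_filter, mem_powersetCard] at hS
    exact ⟨hS.1.1, hS.1.2, fun B hB => hcls1 n G S hS.2.1 B hB, hS.2.2⟩
  · intro l i t h1 h2
    have hp := pri n (uu n) g t K G (τ l i) (fun i' => if i' = i then ∅ else τ l i')
      (hF _ (hτ1 l i)).1 huupos hsq
      (by
        intro i'
        by_cases h : i' = i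
        · simp only [h, if_true, inter_empty, card_empty, zero_add]
          exact hsq
        · simp only [h, if_false]
          exact hinter l i i' (Ne.symm h))
      ((hF _ (hτ1 l i)).2.2.2.2 t h1 h2)
      (by
        have h3 := (ht t h1 h2).2.2.2.2
        rw [hK, hg]
        push_cast
        exact h3)
    refine le_trans (le_of_eq rfl) (hp.trans ?_)
    have h4 : Nat.card {S : Finset (Fin n) // S ⊆ τ l i ∧ S.card = t ∧ Uq G S ∧
        ∀ i' : Fin K, ¬ S ⊆ (if i' = i then ∅ else τ l i')} ≤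
        ((powersetCard t (τ l i)).filter fun S => Uq G S ∧ ∀ i', S ⊆ τ l i' → i' = i).card := by
      rw [Nat.card_eq_fintype_card, Fintype.card_subtype]
      refine Finset.card_le_card fun S hS => ?_
      simp only [mem_filter, mem_univ, true_and] at hS
      simp only [mem_filter, mem_powersetCard]
      refine ⟨⟨hS.1, hS.2.1⟩, hS.2.2.1, fun i' hi' => ?_⟩
      by_contra hne
      have h5 := hS.2.2.2 i'
      simp only [hne, if_false] at h5
      exact h5 hi'
    exact_mod_cast h4

end Pool.Agent.HAR.H41
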