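import Pool.Agent.HAR.Stmts

/-! HAR, TYP: almost all graphs are typical. -/

namespace Pool.Agent.HAR.H41

open Finset Filter Topology

theorem lin_le_exp {n : ℕ} (hn : 200000000 ≤ n) : (n : ℝ) + 1 ≤ Real.exp ((n : ℝ) / 10000) := by
  have hn' : (200000000 : ℝ) ≤ n := by exact_mod_cast hn
  have h := Real.quadratic_le_exp_of_nonneg (x := (n : ℝ) / 10000) (by positivity)
  nlinarith

theorem typ (uqp : UqpStmt) (mkv : MkvStmt) (prb : PrbStmt) : TypStmt := by
  obtain ⟨i0, hi0⟩ := uqp
  obtain ⟨pmono, -, punion, -, pnn, -⟩ := prb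
  refine ⟨1 / 4000, by norm_num, ?_⟩
  filter_upwards [eventually_ge_atTop (100 * i0), eventually_ge_atTop 200000000] with n h1 h2
  have hlin := lin_le_exp h2
  have hn0 : (0 : ℝ) ≤ n := Nat.cast_nonneg n
  set q : ℝ := Real.exp (-(1 / 4000 * n)) with hq
  have hqpos : 0 < q := Real.exp_pos _
  set P : ℝ := (2 : ℝ) ^ (-((n : ℝ) / 700)) * Real.exp (1 / 4000 * n) with hP
  have hP0 : 0 ≤ P := by positivity
  -- the events
  have hev : ∀ i : Fin (n + 1), pr (fun G : SimpleGraph (Fin n) => tt n ≤ (i : ℕ) ∧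
      q * (n.choose i : ℝ) < (Nat.card {a : {I : Finset (Fin n) // I.card = (i : ℕ)} // ¬ Uq G a.1} : ℝ))
      ≤ P := by
    intro i
    by_cases hi : tt n ≤ (i : ℕ)
    · have hile : (i : ℕ) ≤ n := Nat.lt_succ_iff.mp i.2
      have h100 : n ≤ 100 * (i : ℕ) := by
        unfold tt at hi
        omega
      have hii0 : i0 ≤ (i : ℕ) := by omega
      have hch : (0 : ℝ) < (n.choose i : ℝ) := by exact_mod_cast Nat.choose_pos hile
      have hcard : Nat.card {I : Finset (Fin n) // I.card = (i : ℕ)} = n.choose i := by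
        rw [Nat.card_eq_fintype_card, Fintype.card_subtype]
        have : (univ.filter fun I : Finset (Fin n) => I.card = (i : ℕ)) =
            powersetCard i (univ : Finset (Fin n)) := by
          ext I
          simp [mem_powersetCard]
        rw [this, card_powersetCard, card_univ, Fintype.card_fin]
      have h3 := mkv (SimpleGraph (Fin n)) {I : Finset (Fin n) // I.card = (i : ℕ)}
        (fun a G => ¬ Uq G a.1) ((2 : ℝ) ^ (-((i : ℝ) / 7))) (q * (n.choose i : ℝ))
        (by positivity) (by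
          rintro ⟨I, hI⟩
          have := hi0 n I (by rw [hI]; exact hii0) (by rw [hI]; exact h100)
          rw [hI] at this
          exact this)
      rw [hcard] at h3
      refine le_trans (pmono _ _ _ fun G hG => hG.2) (h3.trans ?_)
      have e1 : (n.choose i : ℝ) * (2 : ℝ) ^ (-((i : ℝ) / 7)) / (q * (n.choose i : ℝ)) =
          (2 : ℝ) ^ (-((i : ℝ) / 7)) * q⁻¹ := by
        field_simp
      rw [e1, hP, hq, ← Real.exp_neg, neg_neg]
      refine mul_le_mul_of_nonneg_right ?_ (Real.exp_pos _).le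
      refine Real.rpow_le_rpow_of_exponent_le (by norm_num) ?_
      have : (n : ℝ) ≤ 100 * (i : ℝ) := by exact_mod_cast h100
      linarith
    · have : pr (fun G : SimpleGraph (Fin n) => tt n ≤ (i : ℕ) ∧
        q * (n.choose i : ℝ) <
          (Nat.card {a : {I : Finset (Fin n) // I.card = (i : ℕ)} // ¬ Uq G a.1} : ℝ)) = 0 := by
        unfold pr
        have hE : IsEmpty {G : SimpleGraph (Fin n) // tt n ≤ (i : ℕ) ∧
          q * (n.choose i : ℝ) <
          (Nat.card {a : {I : Finset (Fin n) // I.card = (i : ℕ)} // ¬ Uq G a.1} : ℝ)} :=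
          ⟨fun G => hi G.2.1⟩
        rw [Nat.card_of_isEmpty]
        simp
      rw [this]
      exact hP0
  have hU := punion (SimpleGraph (Fin n)) (Fin (n + 1)) _ P hev
  have hmono : pr (fun G : SimpleGraph (Fin n) => ¬ Ty n q G) ≤ pr (fun G : SimpleGraph (Fin n) =>
      ∃ i : Fin (n + 1), tt n ≤ (i : ℕ) ∧ q * (n.choose i : ℝ) <
        (Nat.card {a : {I : Finset (Fin n) // I.card = (i : ℕ)} // ¬ Uq G a.1} : ℝ)) := by
    refine pmono _ _ _ fun G hG => ?_
    unfold Ty at hG
    push Not at hG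
    obtain ⟨i, hi1, hi2, hi3⟩ := hG
    refine ⟨⟨i, Nat.lt_succ_iff.mpr hi2⟩, hi1, ?_⟩
    refine lt_of_lt_of_le hi3 (le_of_eq ?_)
    congr 1
    classical
    rw [Nat.card_eq_fintype_card, Fintype.card_subtype]
    symm
    refine Finset.card_bij (fun a _ => a.1) ?_ ?_ ?_
    · rintro ⟨I, hI⟩ ha
      simp only [mem_filter, mem_univ, true_and] at ha
      simp only [mem_filter, mem_powersetCard, subset_univ, true_and]
      exact ⟨hI, ha⟩
    · rintro ⟨I, hI⟩ _ ⟨J, hJ⟩ _ h
      exact Subtype.ext h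
    · intro I hI
      simp only [mem_filter, mem_powersetCard, subset_univ, true_and] at hI
      exact ⟨⟨I, hI.1⟩, by simp only [mem_filter, mem_univ, true_and]; exact hI.2, rfl⟩
  refine hmono.trans (hU.trans ?_)
  rw [Nat.card_eq_fintype_card, Fintype.card_fin]
  push_cast
  have hlog : 0.6931471803 < Real.log 2 := Real.log_two_gt_d9
  have h2e : (2 : ℝ) ^ (-((n : ℝ) / 700)) ≤ Real.exp (-(0.00099 * n)) := by
    rw [Real.rpow_def_of_pos (by norm_num)]
    refine Real.exp_le_exp.mpr ?_
    nlinarith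
  calc ((n : ℝ) + 1) * P ≤ Real.exp ((n : ℝ) / 10000) *
        (Real.exp (-(0.00099 * n)) * Real.exp (1 / 4000 * n)) := by
        refine mul_le_mul hlin ?_ hP0 (Real.exp_pos _).le
        rw [hP]
        exact mul_le_mul_of_nonneg_right h2e (Real.exp_pos _).le
    _ = Real.exp ((n : ℝ) / 10000 + (-(0.00099 * n) + 1 / 4000 * n)) := by
        rw [← Real.exp_add, ← Real.exp_add]
    _ ≤ q := by
        rw [hq]
        refine Real.exp_le_exp.mpr ?_
        nlinarith

end Pool.Agent.HAR.H41
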